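import Pool.Agent.Results.MP_b15c9e_ag.CurvesThroughPreperiodicPoints
import Pool.Agent.V1138.AT.Moeb

/-!
# MP_1502ea_ag: Dynamical Mordell-Lang in the plane for one-parameter families of orbits with five étale
preperiodic members, with parameters in the orbits of the roots of unity under the modular group

**Families.** Let `F_{t,0}, F_{t,1}, F_{t,2}` be forms of degree `d` in three variables whose
coefficients are polynomials in `t` (`member F t`), let `x_0, x_1, x_2` be polynomials in `t`
(`start x t`). So `F_t` is a one-parameter family of rational self-maps of the plane `ℙ^2` (for example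
of endomorphisms, for example the constant family) and `x(t)` is a rational curve of starting points.

**Étale preperiodic points.** A point `P` of the cone is called étale preperiodic for a system of
forms `F` if all iterates `F^n(P)` are different from zero, the point `[P]` of `ℙ^2` is preperiodic
and the determinant of the matrix of the partial derivatives of the `F_i` does not vanish at
`F^n(P)` for `n ≥ n₀` (that is, `[F]` is étale at the points of the cycle).

**Parameters.** The parameters are the numbers `t = (a + b ζ) / (c + d ζ)` with integers `a, b, c, d`,
`a d - b c ≠ 0`, and roots of unity `ζ` of any order, such that every prime number `p > R` which divides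
the determinant `a d - b c` divides exactly one of the columns `(a, c)` and `(b, d)`
(`IsMoebiusValue R`); `R` is any given number. They contain the orbits of all roots of unity under the
modular group, `t = g (ζ)` with `g ∈ PSL_2 (ℤ)` or `g ∈ PGL_2 (ℤ[1/R])` (the condition on the prime
numbers is empty), more generally the numbers `t = g (q ζ)` with such `g` and any rational number
`q ≠ 0`, and the numbers `t = a + b ζ` with `a` rational and `b ≠ 0` an integer (theorem
`Pool.Agent.V1138.AT.moeb_of_tr`), in particular all rational numbers. Neither the degree nor the
height of `t` is bounded, and `t` does not belong to a fixed finitely generated field.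

**Theorem.** Let `α_1, …, α_5` be five different rational numbers such that `x(α_l)` is étale
preperiodic for `F_{α_l}`, `l = 1, …, 5`. Then the orbit of `x(t)` under `F_t` satisfies the Dynamical
Mordell-Lang conjecture for all but finitely many of these parameters `t`.

The degrees of the parameters are unbounded. The
conclusion (`DMLAt`) is: all iterates of `x(t)` are defined (different from zero), and for every
set `S` of polynomials in three variables (for a plane curve: one form) the set of the `n` such that
all members of `S` vanish at the `n`-th iterate is a finite union of arithmetic progressions. There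
is no condition on the curve. The family `F_t` can be constant. The starting file
`MP_b15c9e_ag.CurvesThroughPreperiodicPoints` (on `ℙ^N`) treats transcendental `t` and the `t` of
degree at most `δ`, for which `2 δ + 1` étale preperiodic members are needed.

The proof: if `t` is `p`-adically near to `α` for an embedding of `ℂ` into the algebraic closure
of `ℚ_p`, for which all data have good reduction, then the orbit of `x(t)` has the reduction of the
orbit of `x(α)`, so it is étale at `p`, and `p`-adic interpolation applies (starting file).

The parameters `a + b ζ` alone are treated, with four étale preperiodic members, in our file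
`MP_1502ea_ag.TorsionTranslates`.

**The arithmetic** (`Pool.Agent.V1138.AT`). Let `ζ` be of order `n`, `α = u / v` one of the `α_l`, and
`U = u c - v a`, `V = v b - u d`. A prime factor `p > R` of the resultant of `U - V X` and the
cyclotomic polynomial `Φ_n` divides the (homogenized) value at `α` of the minimal polynomial of `t`, since
`a + b X` and `c + d X` have no common zero `≠ 0` modulo `p`. If `n ≥ N (D)` and `U, V ≠ 0`, `|U| ≠ |V|`
then this resultant has a prime factor larger than `D` (theorem `AT.big`): up to the factor
`gcd (U, V) ^ φ (n)` it is at least `3 ^ ((φ (n) - 1) / 2)` by the inequality between the arithmetic and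
the geometric mean, and its part at the primes `p ≤ D` divides `D!`, since it is not divisible by `p²`
for `n > D²`. The bound `N (D)` does not depend on `a, b, c, d`. The four exceptional cases, `α` the
image of `0`, `∞`, `1` or `-1` under the transformation, are the reason for four additional
members. For the finitely many `n < N (D)`, if the values at three different `α` have no prime factor
larger than `D` then the numbers `(α - t) / (α' - t)` are `S`-units, and there are only finitely many
such `t` by the unit equation.
-/

set_option autoImplicit false

open Polynomial Pool.Agent.H936R2 Pool.Agent.Y199.DM Pool.Agent.Y152.BD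

namespace Pool.Agent.Results.MP_1502ea_ag.MoebiusOrbits

open Pool.Agent.Results.MP_b15c9e_ag.CurvesThroughPreperiodicPoints (member start near)

/-- `t = (a + b ζ) / (c + d ζ)` with integers `a, b, c, d`, `a d - b c ≠ 0`, and a root of unity
`ζ`, such that every prime number `p > R` which divides `a d - b c` divides exactly one of the
columns `(a, c)` and `(b, d)`. -/
def IsMoebiusValue (R : ℕ) (t : ℂ) : Prop :=
  ∃ (a b c d : ℤ) (ζ : ℂ), a * d - b * c ≠ 0 ∧ (∃ n : ℕ, 0 < n ∧ ζ ^ n = 1) ∧
    (c : ℂ) + d * ζ ≠ 0 ∧ t = (a + b * ζ) / (c + d * ζ) ∧
    ∀ p : ℕ, p.Prime → R < p → (p : ℤ) ∣ a * d - b * c →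
      ((p : ℤ) ∣ a ∧ (p : ℤ) ∣ c ∧ ¬ ((p : ℤ) ∣ b ∧ (p : ℤ) ∣ d)) ∨
      ((p : ℤ) ∣ b ∧ (p : ℤ) ∣ d ∧ ¬ ((p : ℤ) ∣ a ∧ (p : ℤ) ∣ c))

/-- Dynamical Mordell-Lang in the plane for all but finitely many members with parameters
`(a + b ζ) / (c + d ζ)` of one-parameter families of orbits with five étale preperiodic members. -/
theorem result {d : ℕ} (F : Fin (2 + 1) → MvPolynomial (Fin (2 + 1)) ℂ[X])
    (hF : ∀ i, (F i).IsHomogeneous d) (x : Fin (2 + 1) → ℂ[X])
    (R : ℕ) (α : Fin 5 → ℚ) (hα : Function.Injective α)
    (hα1 : ∀ l, EtalePreperiodic (member F (α l)) (start x (α l))) :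
    {t : ℂ | IsMoebiusValue R t ∧ ¬ DMLAt (member F t) (start x t)}.Finite := by
  classical
  choose u huK hu using fun l => near F hF x (α l) (hα1 l)
  choose D hD using fun l => emb_alg (u l)
  refine (Pool.Agent.V1138.AT.finite_badM R (∑ l, D l + ∑ l, (α l).den) (M := 5) (L := 1) le_rfl α
    hα).subset ?_
  rintro t ⟨htδ, hbad⟩
  refine ⟨htδ, ?_⟩
  rintro ⟨f, hf, W, hW, hWt, hp⟩
  apply hbad
  obtain ⟨p, hp, hpD, hdvd⟩ := hp 0
  have h1 : D (f 0) ≤ ∑ l, D l :=
    Finset.single_le_sum (f := D) (fun _ _ => Nat.zero_le _) (Finset.mem_univ (f 0))
  have h2 : (α (f 0)).den ≤ ∑ l, (α l).den :=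
    Finset.single_le_sum (f := fun l => (α l).den) (fun _ _ => Nat.zero_le _)
      (Finset.mem_univ (f 0))
  have : Fact p.Prime := ⟨hp⟩
  have hden : ¬ p ∣ (α (f 0)).den := by
    intro h
    have := Nat.le_of_dvd (α (f 0)).den_pos h
    omega
  obtain ⟨τ, hτ, hτt⟩ := hD (f 0) p (by omega) t W hW hWt (α (f 0)) hden hdvd
  exact hu (f 0) p τ hden hτ t hτt

end Pool.Agent.Results.MP_1502ea_ag.MoebiusOrbits
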