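import Pool.Agent.Results.MP_b15c9e_ag.CurvesThroughPreperiodicPoints
import Pool.Agent.V1138.KR.Real

/-!
# MP_1502ea_ag: Dynamical Mordell-Lang in the plane for one-parameter families of orbits with an étale
preperiodic member, with values of a rational function at radicals as parameters

**Families.** Let `F_{t,0}, F_{t,1}, F_{t,2}` be forms of degree `d` in three variables whose
coefficients are polynomials in `t` (`member F t`), let `x_0, x_1, x_2` be polynomials in `t`
(`start x t`). So `F_t` is a one-parameter family of rational self-maps of the plane `ℙ^2` (for example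
of endomorphisms, for example the constant family) and `x(t)` is a rational curve of starting points.

**Étale preperiodic points.** A point `P` of the cone is called étale preperiodic for a system of
forms `F` if all iterates `F^n(P)` are different from zero, the point `[P]` of `ℙ^2` is preperiodic
and the determinant of the matrix of the partial derivatives of the `F_i` does not vanish at
`F^n(P)` for `n ≥ n₀` (that is, `[F]` is étale at the points of the cycle).

**Parameters.** Let `Γ₀` be a finitely generated subgroup of `ℚ^×`. We call `ξ` a pure radical over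
`Γ₀` if `ξ ^ N = γ` for some `N > 0` and some rational number `γ` which has a power in `Γ₀`, and `ξ`
has degree `N` over `ℚ` (`IsPureRadical`). For example all real numbers with a power in `Γ₀`, and
their conjugates, are pure radicals (theorem `Pool.Agent.V1138.KR.pure_of_real`). Let `f = P / Q` be
a rational function, where `P` and `Q` are coprime polynomials with integral coefficients. The
parameters are the values `t = f (ξ)` of `f` at the pure radicals `ξ` over `Γ₀` (`IsRadicalValue`),
for example the numbers `2^(1/N) + 2^(-1/N)`, or `1 + 6^(k/N)`. These parameters are algebraic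
numbers of unbounded degree and unbounded height. A rational number `α` is called independent if
`f (x) = α` for at least one `x ≠ 0` with no power in `Γ₀` (for `f = X`: no power of `α ≠ 0` is in
`Γ₀`).

**Theorem.** Let `α` be an independent rational number such that `x(α)` is étale preperiodic
for `F_α`. Then the orbit of `x(t)` under `F_t` satisfies the Dynamical Mordell-Lang conjecture for
all but finitely many parameters `t = f (ξ)`.

One étale preperiodic member is sufficient, and the degrees of the parameters are unbounded. The
conclusion (`DMLAt`) is: all iterates of `x(t)` are defined (different from zero), and for every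
set `S` of polynomials in three variables (for a plane curve: one form) the set of the `n` such that
all members of `S` vanish at the `n`-th iterate is a finite union of arithmetic progressions. There
is no condition on the curve. The family `F_t` can be constant. The starting file
`MP_b15c9e_ag.CurvesThroughPreperiodicPoints` (on `ℙ^N`) treats transcendental `t` and the `t` of
degree at most `δ`, for which `2 δ + 1` étale preperiodic members are needed.

The proof: if `t` is `p`-adically near to `α` for an embedding of `ℂ` into the algebraic closure
of `ℚ_p`, for which all data have good reduction, then the orbit of `x(t)` has the reduction of the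
orbit of `x(α)`, so it is étale at `p`, and `p`-adic interpolation applies (starting file).

**The arithmetic** (`Pool.Agent.V1138.KR`). If `α = u / v` is independent then for all but finitely
many parameters `t = f (ξ)` the (homogenized) value at `α` of the minimal polynomial of `t` has a
prime factor larger than a given number `D`. Otherwise the resultant of `u Q - v P` and the minimal
polynomial of `ξ`, `ξ ^ N = γ`, has only small prime factors, hence `β ^ N - γ` is an `S`-unit for
every zero `β` of `u Q - v P`, with a fixed finite set `S`. By the unit equation `β ^ N / γ` is one of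
finitely many numbers, and if no power of `β` is in `Γ₀` this number determines `N` and `γ`.
-/

set_option autoImplicit false

open Polynomial Pool.Agent.H936R2 Pool.Agent.Y199.DM Pool.Agent.Y152.BD

namespace Pool.Agent.Results.MP_1502ea_ag.RadicalValues

open Pool.Agent.Results.MP_b15c9e_ag.CurvesThroughPreperiodicPoints (member start near)

/-- `ξ ^ N = γ` for some `N > 0` and `γ ∈ ℚ^×` with a power in `Γ₀`, and `ξ` has degree `N`. -/
def IsPureRadical (Γ₀ : Subgroup ℚˣ) (ξ : ℂ) : Prop :=
  ∃ N : ℕ, 0 < N ∧ ∃ γ : ℚˣ, (∃ m : ℕ, 0 < m ∧ γ ^ m ∈ Γ₀) ∧ ξ ^ N = ((γ : ℚ) : ℂ) ∧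
    N ≤ (minpoly ℚ ξ).natDegree

/-- `t` is the value of `P / Q` at a pure radical over `Γ₀`. -/
def IsRadicalValue (Γ₀ : Subgroup ℚˣ) (P Q : Polynomial ℤ) (t : ℂ) : Prop :=
  ∃ ξ : ℂ, IsPureRadical Γ₀ ξ ∧ Polynomial.aeval ξ Q ≠ 0 ∧
    t = Polynomial.aeval ξ P / Polynomial.aeval ξ Q

/-- `P` and `Q` have no common factor over the rational numbers. -/
def NoCommonFactor (P Q : Polynomial ℤ) : Prop :=
  IsCoprime (P.map (Int.castRingHom ℚ)) (Q.map (Int.castRingHom ℚ))

/-- `P / Q` takes the value `α` at a nonzero number which has no power in `Γ₀`. -/
def Independent (Γ₀ : Subgroup ℚˣ) (P Q : Polynomial ℤ) (α : ℚ) : Prop :=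
  ∃ x : ℂ, x ≠ 0 ∧ Polynomial.aeval x P = (α : ℂ) * Polynomial.aeval x Q ∧
    ∀ m : ℕ, 0 < m → ∀ γ ∈ Γ₀, x ^ m ≠ ((γ : ℚ) : ℂ)

/-- Dynamical Mordell-Lang in the plane for all but finitely many members with values of a rational
function at radicals as parameters, of one-parameter families of orbits with an étale preperiodic
member. -/
theorem result {d : ℕ} (F : Fin (2 + 1) → MvPolynomial (Fin (2 + 1)) ℂ[X])
    (hF : ∀ i, (F i).IsHomogeneous d) (x : Fin (2 + 1) → ℂ[X])
    (Γ₀ : Subgroup ℚˣ) (hΓ₀ : Γ₀.FG)
    (P Q : ℤ[X]) (hPQ : NoCommonFactor P Q) (α : ℚ) (hα : Independent Γ₀ P Q α)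
    (hα1 : EtalePreperiodic (member F α) (start x α)) :
    {t : ℂ | IsRadicalValue Γ₀ P Q t ∧ ¬ DMLAt (member F t) (start x t)}.Finite := by
  classical
  obtain ⟨u, huK, hu⟩ := near F hF x α hα1
  obtain ⟨D, hD⟩ := emb_alg u
  refine (Pool.Agent.V1138.KR.finite_badK (D + α.den) (M := 1) (L := 1) le_rfl (fun _ => α)
    Γ₀ hΓ₀ P Q hPQ (fun _ => hα)).subset ?_
  rintro t ⟨htδ, hbad⟩
  refine ⟨htδ, ?_⟩
  rintro ⟨f, hf, W, hW, hWt, hp⟩
  apply hbad
  obtain ⟨p, hp, hpD, hdvd⟩ := hp 0
  have : Fact p.Prime := ⟨hp⟩
  have hden : ¬ p ∣ α.den := by
    intro h
    have := Nat.le_of_dvd α.den_pos h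
    omega
  obtain ⟨τ, hτ, hτt⟩ := hD p (by omega) t W hW hWt α hden hdvd
  exact hu p τ hden hτ t hτt

end Pool.Agent.Results.MP_1502ea_ag.RadicalValues
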