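import Pool.Agent.Results.MP_b15c9e_ag.CurvesThroughPreperiodicPoints
import Pool.Agent.V1138.AT.Main

/-!
# MP_1502ea_ag: Dynamical Mordell-Lang in the plane for one-parameter families of orbits with four étale
preperiodic members, with parameters `a + b ζ`, `ζ` a root of unity

**Families.** Let `F_{t,0}, F_{t,1}, F_{t,2}` be forms of degree `d` in three variables whose
coefficients are polynomials in `t` (`member F t`), let `x_0, x_1, x_2` be polynomials in `t`
(`start x t`). So `F_t` is a one-parameter family of rational self-maps of the plane `ℙ^2` (for example
of endomorphisms, for example the constant family) and `x(t)` is a rational curve of starting points.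

**Étale preperiodic points.** A point `P` of the cone is called étale preperiodic for a system of
forms `F` if all iterates `F^n(P)` are different from zero, the point `[P]` of `ℙ^2` is preperiodic
and the determinant of the matrix of the partial derivatives of the `F_i` does not vanish at
`F^n(P)` for `n ≥ n₀` (that is, `[F]` is étale at the points of the cycle).

**Parameters.** The parameters are all numbers `t = a + b ζ` with a rational number `a`, an integer
`b ≠ 0` and a root of unity `ζ` of any order (`IsTorsionTranslate`). They contain all rational numbers,
and numbers of the degrees `φ (n)` for all `n`; neither the degree nor the height of `t` is bounded,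
and `t` does not belong to a fixed finitely generated field.

**Theorem.** Let `α_1, …, α_4` be four different rational numbers such that `x(α_l)` is étale
preperiodic for `F_{α_l}`, `l = 1, …, 4`. Then the orbit of `x(t)` under `F_t` satisfies the Dynamical
Mordell-Lang conjecture for all but finitely many parameters `t = a + b ζ`.

The degrees of the parameters are unbounded. The
conclusion (`DMLAt`) is: all iterates of `x(t)` are defined (different from zero), and for every
set `S` of polynomials in three variables (for a plane curve: one form) the set of the `n` such that
all members of `S` vanish at the `n`-th iterate is a finite union of arithmetic progressions. There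
is no condition on the curve. The family `F_t` can be constant. The starting file
`MP_b15c9e_ag.CurvesThroughPreperiodicPoints` (on `ℙ^N`) treats transcendental `t` and the `t` of
degree at most `δ`, for which `2 δ + 1` étale preperiodic members are needed.

The proof: if `t` is `p`-adically near to `α` for an embedding of `ℂ` into the algebraic closure
of `ℚ_p`, for which all data have good reduction, then the orbit of `x(t)` has the reduction of the
orbit of `x(α)`, so it is étale at `p`, and `p`-adic interpolation applies (starting file).

**The arithmetic** (`Pool.Agent.V1138.AT`). Let `ζ` be of order `n`, `α` one of the `α_l` and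
`(α - a) / b = U / V`. A prime factor of the resultant of `U - V X` and the cyclotomic polynomial
`Φ_n` divides the (homogenized) value at `α` of the minimal polynomial of `t = a + b ζ`. If `n ≥ N (D)`
and `U / V ≠ 0, 1, -1` then this resultant has a prime factor larger than `D` (theorem `AT.big`): by
the inequality between the arithmetic and the geometric mean it is at least `3 ^ ((φ (n) - 1) / 2)`,
and its part at the primes `p ≤ D` divides `D!`, since it is not divisible by `p²` for `n > D²`. The
bound `N (D)` does not depend on `U` and `V`, that is on `a` and `b`. The three exceptional cases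
`α = a, a + b, a - b` are the reason for three additional members. For the
finitely many `n < N (D)`, if the values at three different `α` have no prime factor larger than `D`
then the three numbers `(α - t) / (α' - t)` are `S`-units, and there are only finitely many such `t`
by the unit equation.
-/

set_option autoImplicit false

open Polynomial Pool.Agent.H936R2 Pool.Agent.Y199.DM Pool.Agent.Y152.BD

namespace Pool.Agent.Results.MP_1502ea_ag.TorsionTranslates

open Pool.Agent.Results.MP_b15c9e_ag.CurvesThroughPreperiodicPoints (member start near)

/-- `t = a + b ζ` with a rational number `a`, an integer `b ≠ 0` and a root of unity `ζ`. -/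
def IsTorsionTranslate (t : ℂ) : Prop :=
  ∃ (a : ℚ) (b : ℤ) (ζ : ℂ), b ≠ 0 ∧ (∃ n : ℕ, 0 < n ∧ ζ ^ n = 1) ∧ t = a + b * ζ

/-- Dynamical Mordell-Lang in the plane for all but finitely many members with parameters `a + b ζ` of
one-parameter families of orbits with four étale preperiodic members. -/
theorem result {d : ℕ} (F : Fin (2 + 1) → MvPolynomial (Fin (2 + 1)) ℂ[X])
    (hF : ∀ i, (F i).IsHomogeneous d) (x : Fin (2 + 1) → ℂ[X])
    (α : Fin 4 → ℚ) (hα : Function.Injective α)
    (hα1 : ∀ l, EtalePreperiodic (member F (α l)) (start x (α l))) :
    {t : ℂ | IsTorsionTranslate t ∧ ¬ DMLAt (member F t) (start x t)}.Finite := by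
  classical
  choose u huK hu using fun l => near F hF x (α l) (hα1 l)
  choose D hD using fun l => emb_alg (u l)
  refine (Pool.Agent.V1138.AT.finite_badA (∑ l, D l + ∑ l, (α l).den) (M := 4) (L := 1) le_rfl α
    hα).subset ?_
  rintro t ⟨htδ, hbad⟩
  refine ⟨htδ, ?_⟩
  rintro ⟨f, hf, W, hW, hWt, hp⟩
  apply hbad
  obtain ⟨p, hp, hpD, hdvd⟩ := hp 0
  have h1 : D (f 0) ≤ ∑ l, D l :=
    Finset.single_le_sum (f := D) (fun _ _ => Nat.zero_le _) (Finset.mem_univ (f 0))
  have h2 : (α (f 0)).den ≤ ∑ l, (α l).den :=
    Finset.single_le_sum (f := fun l => (α l).den) (fun _ _ => Nat.zero_le _)
      (Finset.mem_univ (f 0))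
  have : Fact p.Prime := ⟨hp⟩
  have hden : ¬ p ∣ (α (f 0)).den := by
    intro h
    have := Nat.le_of_dvd (α (f 0)).den_pos h
    omega
  obtain ⟨τ, hτ, hτt⟩ := hD (f 0) p (by omega) t W hW hWt (α (f 0)) hden hdvd
  exact hu (f 0) p τ hden hτ t hτt

end Pool.Agent.Results.MP_1502ea_ag.TorsionTranslates
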